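import Mathlib
import Pool.Agent.Lib.Ribet4b482e.Main

/-!
# A counterexample to the relative semi-abelian analogue of Schanuel's conjecture

Notation of the problem file, in the case `g = dim A = 1`, `s = 1`, `n = 1`:

* `A = E : Y² = 4X³ - g₂X - g₃` is an elliptic curve over the field `Qbar` of algebraic numbers,
  with period lattice `Λ = ℤω₁ + ℤω₂` and uniformisation `z ↦ (℘(z), ℘'(z))`; `E` is identified
  with its dual;
* `Q = (℘(q), ℘'(q))` is an algebraic point of `E`, `Q ≠ O`;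
* `G` is the extension of `E` by `𝔾ₘ` given by `Q`. Its restriction to `E ∖ {O, -Q}` is
  `(E ∖ {O, -Q}) × 𝔾ₘ`, with algebraic coordinates `(x, y, u)`, and its exponential map is
  `exp_G(z, t) = (℘(z), ℘'(z), σ(z+q)/(σ(z)σ(q)) · exp(t - ζ(q)z))`;
* the invariant differentials of `G` are spanned by `dx/y`, which `exp_G` pulls back to `dz`, and
  `ξ_c = du/u - ½ (y - y_Q)/(x - x_Q) dx/y + c dx/y`, which it pulls back to `dt + c dz` (see
  `hasDerivAt_uCoord` below). The forms `ξ_c` with `c` algebraic are all the admissible choices of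
  the differential of the third kind of the problem file: they restrict to `du/u` on `𝔾ₘ`;
* the differential of the second kind is `η = -x dx/y`, with primitive `ζ`; its periods are the
  quasi-periods `η_j = ζ(z + ω_j) - ζ(z) = 2 ζ(ω_j/2)`;
* the periods of `ξ_c` are `ζ(q)ω_j - η_j q + c ω_j` (`j = 1, 2`) and `2πi` (see `kernel_iff`
  below, which computes the kernel of `exp_G`, that is the period lattice `H₁(G(ℂ), ℤ)`).

The point `R` of the counterexample is the Ribet point (deficient point) of `G` above `P = [i]Q`,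
where `E` has complex multiplication by `ℤ[i]`; its generalised logarithm is
`(iq, -iζ(q), iqζ(q) + c iq)`.
-/

open Module Complex

noncomputable section
namespace Pool.Agent.Results.MP_4b482e_nt.RibetCounterexample

/-- The field of algebraic numbers, as a subfield of `ℂ`. -/
abbrev Qbar : IntermediateField ℚ ℂ := algebraicClosure ℚ ℂ

/-- The Weierstrass `ζ`-function of the lattice of `L` (the term `l = 0` of the sum is `1/z`,
because division by zero is zero). -/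
def zeta (L : PeriodPair) (z : ℂ) : ℂ :=
  ∑' l : L.lattice, (1 / (z - l) + 1 / l + z / (l : ℂ) ^ 2)

/-- The Weierstrass `σ`-function of the lattice of `L` (the factor `l = 0` of the product
is `1`). -/
def sigma (L : PeriodPair) (z : ℂ) : ℂ :=
  z * ∏' l : L.lattice, (1 - z / l) * exp (z / l + (z / l) ^ 2 / 2)

/-- The data of the problem for `g = s = 1`: an elliptic curve `E` over the algebraic numbers, a
point `Q ≠ O` of `E` over the algebraic numbers (hence the extension `G` of `E` by `𝔾ₘ`), and a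
differential of the third kind `ξ_c` on `G` over the algebraic numbers. -/
structure Datum where
  /-- The periods `ω₁, ω₂` of `E`. -/
  L : PeriodPair
  g₂_mem : L.g₂ ∈ Qbar
  g₃_mem : L.g₃ ∈ Qbar
  /-- A logarithm of the point `Q`. -/
  q : ℂ
  q_notMem : q ∉ L.lattice
  xQ_mem : L.weierstrassP q ∈ Qbar
  yQ_mem : L.derivWeierstrassP q ∈ Qbar
  /-- The parameter `c` of the differential of the third kind `ξ_c`. -/
  c : ℂ
  c_mem : c ∈ Qbar

/-- A point `R = exp_G(z, t)` of `G(ℂ)` above a point `P = (℘(z), ℘'(z))` of `E ∖ {O, -Q}`, given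
by its logarithm. -/
structure Point (D : Datum) where
  /-- The logarithm `∫_O^P dx/y` of `P`. -/
  z : ℂ
  /-- The second coordinate of the logarithm of `R`. -/
  t : ℂ
  z_notMem : z ∉ D.L.lattice
  zq_notMem : z + D.q ∉ D.L.lattice

section definitions

variable (D : Datum)

/-- The coordinate `u` of `exp_G(z, t)`. -/
def uCoord (z t : ℂ) : ℂ :=
  sigma D.L (z + D.q) / (sigma D.L z * sigma D.L D.q) * exp (t - zeta D.L D.q * z)

/-- The exponential map of `G` in the affine coordinates `(x, y, u)`. -/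
def expG (z t : ℂ) : ℂ × ℂ × ℂ :=
  (D.L.weierstrassP z, D.L.derivWeierstrassP z, uCoord D z t)

/-- The quasi-period `η₁` of `ζ`. -/
def η₁ : ℂ := 2 * zeta D.L (D.L.ω₁ / 2)

/-- The quasi-period `η₂` of `ζ`. -/
def η₂ : ℂ := 2 * zeta D.L (D.L.ω₂ / 2)

/-- The period of `ξ_c` over a lift to `G` of the cycle of `E` with period `ω₁`. -/
def ξ₁ : ℂ := zeta D.L D.q * D.L.ω₁ - η₁ D * D.q + D.c * D.L.ω₁

/-- The period of `ξ_c` over a lift to `G` of the cycle of `E` with period `ω₂`. -/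
def ξ₂ : ℂ := zeta D.L D.q * D.L.ω₂ - η₂ D * D.q + D.c * D.L.ω₂

/-- The period set `Ω_G`. -/
def Ω : Set ℂ := {D.L.ω₁, D.L.ω₂, η₁ D, η₂ D, ξ₁ D, ξ₂ D, 2 * (Real.pi : ℂ) * I}

/-- The field generated by `Ω_G` over the algebraic numbers. -/
def K : IntermediateField Qbar ℂ := IntermediateField.adjoin Qbar (Ω D)

/-- The `ℚ`-span `V` of `2πi` and the periods of `ξ_c`. -/
def V : Submodule ℚ ℂ := Submodule.span ℚ {2 * (Real.pi : ℂ) * I, ξ₁ D, ξ₂ D}

/-- `W` is the tangent space of an abelian subvariety of `E × E`: it is spanned over `ℝ` by its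
elements lying in the period lattice `Λ × Λ`. -/
def IsTangent (W : Submodule ℂ (ℂ × ℂ)) : Prop :=
  (W : Set (ℂ × ℂ)) =
    Submodule.span ℝ {v : ℂ × ℂ | v ∈ W ∧ v.1 ∈ D.L.lattice ∧ v.2 ∈ D.L.lattice}

variable {D} (R : Point D)

/-- The third component `∫_O^R ξ_c` of the generalised logarithm of `R`. -/
def thirdKind : ℂ := R.t + D.c * R.z

/-- The generators of `F` over `K = Qbar(Ω_G)`: the coordinates of `R` and the three components
`∫_O^P dx/y = z`, `∫_O^P η = ζ(z)`, `∫_O^R ξ_c` of its generalised logarithm. -/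
def generators : Set ℂ :=
  {(expG D R.z R.t).1, (expG D R.z R.t).2.1, (expG D R.z R.t).2.2, R.z, zeta D.L R.z, thirdKind R}

/-- The field `F = Qbar(Ω_G, R, log_G(R))`. -/
def F : IntermediateField (K D) ℂ := IntermediateField.adjoin (K D) (generators R)

/-- The number `t` of the problem: the dimension of the `ℚ`-span of `∫_O^R ξ_c` in `ℂ/V`. -/
def tRank : ℕ := finrank ℚ (Submodule.span ℚ {(V D).mkQ (thirdKind R)})

/-- The tangent space of `B`, the smallest algebraic subgroup of `E × E` containing `(P, Q)`: the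
intersection of the tangent spaces `W` of all the abelian subvarieties of `E × E` containing a
multiple `N(P, Q)`, `N ≠ 0`. -/
def tangentB : Submodule ℂ (ℂ × ℂ) :=
  sInf {W | IsTangent D W ∧ ∃ N : ℕ, N ≠ 0 ∧ ∃ l ∈ D.L.lattice, ∃ m ∈ D.L.lattice,
    ((N * R.z - l, N * D.q - m) : ℂ × ℂ) ∈ W}

/-- The dimension of `B_Q = B ∩ (E × {Q})`, a coset of `B ∩ (E × {O})`. -/
def dimBQ : ℕ := finrank ℂ (tangentB R ⊓ Submodule.prod ⊤ ⊥ : Submodule ℂ (ℂ × ℂ))

/-- The transcendence degree of `F` over `Qbar(Ω_G)`. -/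
def trdegF : Cardinal := Algebra.trdeg (K D) (F R)

/-- The inequality of the problem: `trdeg_{Qbar(Ω_G)} F ≥ 2 dim B_Q + t`. -/
def Inequality : Prop := ((2 * dimBQ R + tRank R : ℕ) : Cardinal) ≤ trdegF R

end definitions

open Lib.Ribet4b482e

lemma zeta_eq (L : PeriodPair) : zeta L = zetaW L := rfl

lemma sigma_eq (L : PeriodPair) : sigma L = sigmaW L := rfl

lemma η₁_eq (D : Datum) : η₁ D = etaW D.L D.L.ω₁ :=
  (etaW_eq_two_mul D.L D.L.ω₁_mem_lattice D.L.ω₁_div_two_notMem_lattice).symm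

lemma η₂_eq (D : Datum) : η₂ D = etaW D.L D.L.ω₂ :=
  (etaW_eq_two_mul D.L D.L.ω₂_mem_lattice D.L.ω₂_div_two_notMem_lattice).symm

/-! ### Checks of the definitions (not used in the main result) -/

/-- `η_j` is the quasi-period of `ζ` (first period). -/
theorem zeta_add_ω₁ (D : Datum) {z : ℂ} (hz : z ∉ D.L.lattice) :
    zeta D.L (z + D.L.ω₁) = zeta D.L z + η₁ D := by
  rw [η₁_eq]; exact zetaW_add D.L hz D.L.ω₁_mem_lattice

/-- `η_j` is the quasi-period of `ζ` (second period). -/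
theorem zeta_add_ω₂ (D : Datum) {z : ℂ} (hz : z ∉ D.L.lattice) :
    zeta D.L (z + D.L.ω₂) = zeta D.L z + η₂ D := by
  rw [η₂_eq]; exact zetaW_add D.L hz D.L.ω₂_mem_lattice

/-- `ζ' = -℘`: the form `-x dx/y` has primitive `ζ`. -/
theorem hasDerivAt_zeta (D : Datum) {z : ℂ} (hz : z ∉ D.L.lattice) :
    HasDerivAt (zeta D.L) (-D.L.weierstrassP z) z := hasDerivAt_zetaW D.L hz

/-- Along any holomorphic curve `s ↦ (z(s), t(s))` one has
`u'/u = t' + ½ (y - y_Q)/(x - x_Q) z'`, so that `exp_G` pulls back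
`ξ_c = du/u - ½ (y - y_Q)/(x - x_Q) dx/y + c dx/y` to `dt + c dz`. -/
theorem hasDerivAt_uCoord (D : Datum) {z t : ℂ → ℂ} {z' t' s : ℂ} (hz : HasDerivAt z z' s)
    (ht : HasDerivAt t t' s) (h1 : z s ∉ D.L.lattice) (h2 : z s + D.q ∉ D.L.lattice)
    (h3 : z s - D.q ∉ D.L.lattice) :
    HasDerivAt (fun s => uCoord D (z s) (t s)) (uCoord D (z s) (t s) *
      (t' + (D.L.derivWeierstrassP (z s) - D.L.derivWeierstrassP D.q) /
        (D.L.weierstrassP (z s) - D.L.weierstrassP D.q) / 2 * z')) s := by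
  have e : ∀ z t : ℂ, uCoord D z t = fq D.L D.q (zetaW D.L D.q) z * exp t := by
    intro z t
    rw [uCoord, fq, zeta_eq, sigma_eq, mul_assoc, ← exp_add]
    ring_nf
  have a1 := (hasDerivAt_fq D.L (κ := zetaW D.L D.q) D.q_notMem h1 h2).comp s hz
  have a2 := a1.mul ht.cexp
  have a3 : (fun s => uCoord D (z s) (t s)) =
      (fq D.L D.q (zetaW D.L D.q) ∘ z) * fun s => exp (t s) := by
    ext s
    simp [e]
  rw [a3]
  refine a2.congr_deriv ?_
  rw [hq_eq_slope D.L D.q_notMem h1 h2 h3, slopeP, e]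
  simp only [Function.comp_apply]
  ring

/-- The kernel of `exp_G`, i.e. the lattice `H₁(G(ℂ), ℤ)` of periods: it consists of the `(λ, τ)`
for which `∫ dz = λ = aω₁ + bω₂` and `∫ ξ_c = τ + cλ = aξ₁ + bξ₂ + 2πi n`. -/
theorem kernel_iff (D : Datum) (l τ : ℂ) :
    (∀ z t, z ∉ D.L.lattice → z + D.q ∉ D.L.lattice → expG D (z + l) (t + τ) = expG D z t) ↔
    ∃ a b n : ℤ, l = a * D.L.ω₁ + b * D.L.ω₂ ∧
      τ + D.c * l = a * ξ₁ D + b * ξ₂ D + 2 * (Real.pi : ℂ) * I * n := by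
  have hηab : ∀ a b : ℤ, etaW D.L (a * D.L.ω₁ + b * D.L.ω₂) = a * η₁ D + b * η₂ D := by
    intro a b
    have hl1 : (a : ℂ) * D.L.ω₁ ∈ D.L.lattice := PeriodPair.mem_lattice.mpr ⟨a, 0, by simp⟩
    have hl2 : (b : ℂ) * D.L.ω₂ ∈ D.L.lattice := PeriodPair.mem_lattice.mpr ⟨0, b, by simp⟩
    rw [η₁_eq, η₂_eq, etaW_add D.L hl1 hl2, etaW_zsmul D.L a D.L.ω₁_mem_lattice,
      etaW_zsmul D.L b D.L.ω₂_mem_lattice]
  have hu : ∀ z t, uCoord D z t = fq D.L D.q (zetaW D.L D.q) z * exp t := by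
    intro z t
    rw [uCoord, fq, zeta_eq, sigma_eq, mul_assoc, ← exp_add]
    ring_nf
  have hul : l ∈ D.L.lattice → ∀ z t, uCoord D (z + l) (t + τ) =
      exp (etaW D.L l * D.q - zetaW D.L D.q * l + τ) * uCoord D z t := by
    intro hl z t
    rw [hu, hu, fq_add D.L hl, exp_add, exp_add]
    ring
  constructor
  · intro h
    have hc : (D.L.lattice : Set ℂ).Countable :=
      countable_of_Lindelof_of_discrete (X := D.L.lattice)
    obtain ⟨z, hz⟩ : ∃ z : ℂ, z ∉ D.L.lattice ∧ z + D.q ∉ D.L.lattice ∧ z + l ∉ D.L.lattice ∧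
        2 * z + l ∉ D.L.lattice := by
      have h1 : ((fun z : ℂ => z + D.q) ⁻¹' (D.L.lattice : Set ℂ)).Countable :=
        hc.preimage (add_left_injective _)
      have h2 : ((fun z : ℂ => z + l) ⁻¹' (D.L.lattice : Set ℂ)).Countable :=
        hc.preimage (add_left_injective _)
      have h3 : ((fun z : ℂ => 2 * z + l) ⁻¹' (D.L.lattice : Set ℂ)).Countable := by
        refine hc.preimage ?_
        intro x y hxy
        simpa using hxy
      have h4 := ((hc.union h1).union (h2.union h3)).dense_compl (𝕜 := ℂ)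
      obtain ⟨z, hz⟩ := h4.nonempty
      simp only [Set.mem_compl_iff, Set.mem_union, Set.mem_preimage, SetLike.mem_coe,
        not_or] at hz
      exact ⟨z, hz.1.1, hz.1.2, hz.2.1, hz.2.2⟩
    obtain ⟨hz1, hz2, hz3, hz4⟩ := hz
    have h1 := h z 0 hz1 hz2
    simp only [expG, Prod.mk.injEq] at h1
    obtain ⟨hP, -, hU⟩ := h1
    have hl : l ∈ D.L.lattice := by
      rcases (weierstrassP_eq_iff D.L hz3 hz1).mp hP with h2 | h2
      · exfalso
        apply hz4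
        convert h2 using 1
        ring
      · simpa using h2
    rw [hul hl, hu] at hU
    have hne := mul_ne_zero (fq_ne_zero D.L (κ := zetaW D.L D.q) D.q_notMem hz1 hz2)
      (exp_ne_zero (0 : ℂ))
    have hexp : exp (etaW D.L l * D.q - zetaW D.L D.q * l + τ) = 1 := by
      have := mul_right_cancel₀ hne (hU.trans (one_mul _).symm)
      exact this
    obtain ⟨n, hn⟩ := exp_eq_one_iff.mp hexp
    obtain ⟨a, b, hab⟩ := PeriodPair.mem_lattice.mp hl
    refine ⟨a, b, n, hab.symm, ?_⟩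
    rw [← hab, hηab] at hn
    rw [← hab, ξ₁, ξ₂, zeta_eq]
    linear_combination hn
  · rintro ⟨a, b, n, hab, hτ⟩ z t hz hzq
    have hl : l ∈ D.L.lattice := PeriodPair.mem_lattice.mpr ⟨a, b, hab.symm⟩
    have e1 : exp (etaW D.L l * D.q - zetaW D.L D.q * l + τ) = 1 := by
      rw [exp_eq_one_iff]
      refine ⟨n, ?_⟩
      rw [ξ₁, ξ₂, zeta_eq] at hτ
      rw [hab, hηab]
      rw [hab] at hτ
      linear_combination hτ
    simp only [expG, Prod.mk.injEq]
    refine ⟨D.L.weierstrassP_add_coe _ ⟨_, hl⟩, D.L.derivWeierstrassP_add_coe _ ⟨_, hl⟩, ?_⟩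
    rw [hul hl, e1, one_mul]

lemma trdeg_F_eq_zero {D : Datum} {R : Point D} (h : ∀ x ∈ generators R, IsIntegral (K D) x) :
    trdegF R = 0 := by
  have h1 : Algebra.IsAlgebraic (K D) (F R) := IntermediateField.isAlgebraic_adjoin h
  exact trdeg_eq_zero_iff.mpr h1

lemma isIntegral_of_mem_K {D : Datum} {x : ℂ} (hx : x ∈ K D) : IsIntegral (K D) x :=
  isIntegral_algebraMap (x := (⟨x, hx⟩ : K D))

lemma mem_K_of_mem_Qbar {D : Datum} {x : ℂ} (hx : x ∈ Qbar) : x ∈ K D :=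
  (K D).algebraMap_mem ⟨x, hx⟩

lemma mem_Qbar {x : ℂ} : x ∈ Qbar ↔ IsAlgebraic ℚ x := mem_algebraicClosure_iff

/-! ### The Ribet point -/

section ribet

variable {D : Datum}

lemma I_mem_Qbar : I ∈ Qbar := mem_Qbar.mpr isAlgebraic_I

lemma I_q_notMem (hq : ∀ n : ℤ, n ≠ 0 → (n : ℂ) * D.q ∉ D.L.lattice)
    (hI : D.L.ω₂ = I * D.L.ω₁) : I * D.q ∉ D.L.lattice := by
  have := zi_mul_notMem D.L hI hq (a := 0) (b := 1) (Or.inr one_ne_zero)
  simpa using this

lemma I_q_add_notMem (hq : ∀ n : ℤ, n ≠ 0 → (n : ℂ) * D.q ∉ D.L.lattice)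
    (hI : D.L.ω₂ = I * D.L.ω₁) : I * D.q + D.q ∉ D.L.lattice := by
  have := zi_mul_notMem D.L hI hq (a := 1) (b := 1) (Or.inr one_ne_zero)
  have e : I * D.q + D.q = (((1 : ℤ) : ℂ) + ((1 : ℤ) : ℂ) * I) * D.q := by
    push_cast
    ring
  rwa [e]

/-- The Ribet point of `G`, above `P = [i]Q`. -/
def ribet (D : Datum) (hI : D.L.ω₂ = I * D.L.ω₁)
    (hq : ∀ n : ℤ, n ≠ 0 → (n : ℂ) * D.q ∉ D.L.lattice) : Point D where
  z := I * D.q
  t := I * D.q * zeta D.L D.q
  z_notMem := I_q_notMem hq hI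
  zq_notMem := I_q_add_notMem hq hI

lemma uCoord_ribet (hI : D.L.ω₂ = I * D.L.ω₁) :
    uCoord D (I * D.q) (I * D.q * zeta D.L D.q) ^ 2 = -(2 * I) * D.L.weierstrassP D.q := by
  have h0 := sigmaW_ne_zero D.L D.q_notMem
  have e : I * D.q * zeta D.L D.q - zeta D.L D.q * (I * D.q) = 0 := by ring
  rw [uCoord, e, exp_zero, mul_one, sigma_eq, sigmaW_I_mul D.L hI, add_comm, div_pow,
    sigmaW_one_add_I_mul_sq D.L hI D.q_notMem]
  field_simp
  rw [I_sq]
  ring

lemma q_zeta_mem_K (hI : D.L.ω₂ = I * D.L.ω₁) : D.q ∈ K D ∧ zeta D.L D.q ∈ K D := by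
  have hΩ : Ω D ⊆ (K D : Set ℂ) := IntermediateField.subset_adjoin Qbar (Ω D)
  have mω : D.L.ω₁ ∈ K D := hΩ (by simp [Ω])
  have mη : η₁ D ∈ K D := hΩ (by simp [Ω])
  have m1 : ξ₁ D ∈ K D := hΩ (by simp [Ω])
  have m2 : ξ₂ D ∈ K D := hΩ (by simp [Ω])
  have mI : I ∈ K D := mem_K_of_mem_Qbar I_mem_Qbar
  have mc : D.c ∈ K D := mem_K_of_mem_Qbar D.c_mem
  have hη : η₁ D ≠ 0 := by rw [η₁_eq]; exact etaW_ω₁_ne_zero D.L hI
  have hη₂ : η₂ D = - I * η₁ D := by rw [η₁_eq, η₂_eq]; exact etaW_ω₂ D.L hI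
  have hω : D.L.ω₁ ≠ 0 := by
    have := D.L.indep.ne_zero 0
    simpa using this
  have e1 : D.q = (-I * ξ₂ D - ξ₁ D) / (2 * η₁ D) := by
    rw [eq_div_iff (mul_ne_zero two_ne_zero hη), ξ₁, ξ₂, hη₂, hI]
    linear_combination (zeta D.L D.q * D.L.ω₁ + η₁ D * D.q + D.c * D.L.ω₁) * I_mul_I
  have e2 : zeta D.L D.q = (ξ₁ D - I * ξ₂ D) / (2 * D.L.ω₁) - D.c := by
    rw [eq_sub_iff_add_eq, eq_div_iff (mul_ne_zero two_ne_zero hω), ξ₁, ξ₂, hη₂, hI]
    linear_combination (zeta D.L D.q * D.L.ω₁ + η₁ D * D.q + D.c * D.L.ω₁) * I_mul_I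
  have m22 : (2 : ℂ) ∈ K D := ofNat_mem (K D) 2
  refine ⟨?_, ?_⟩
  · rw [e1]
    exact div_mem (sub_mem (mul_mem (neg_mem mI) m2) m1) (mul_mem m22 mη)
  · rw [e2]
    exact sub_mem (div_mem (sub_mem m1 (mul_mem mI m2)) (mul_mem m22 mω)) mc

lemma trdeg_ribet (hI : D.L.ω₂ = I * D.L.ω₁)
    (hq : ∀ n : ℤ, n ≠ 0 → (n : ℂ) * D.q ∉ D.L.lattice) :
    trdegF (ribet D hI hq) = 0 := by
  refine trdeg_F_eq_zero ?_
  obtain ⟨mq, mζ⟩ := q_zeta_mem_K (D := D) hI
  have mI : I ∈ K D := mem_K_of_mem_Qbar I_mem_Qbar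
  intro x hx
  simp only [generators, Set.mem_insert_iff, Set.mem_singleton_iff] at hx
  rcases hx with rfl | rfl | rfl | rfl | rfl | rfl
  · refine isIntegral_of_mem_K ?_
    change D.L.weierstrassP (I * D.q) ∈ K D
    rw [weierstrassP_I_mul D.L hI]
    exact neg_mem (mem_K_of_mem_Qbar D.xQ_mem)
  · refine isIntegral_of_mem_K ?_
    change D.L.derivWeierstrassP (I * D.q) ∈ K D
    rw [derivWeierstrassP_I_mul D.L hI]
    exact mul_mem mI (mem_K_of_mem_Qbar D.yQ_mem)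
  · refine IsIntegral.of_pow (n := 2) (by norm_num) ?_
    refine isIntegral_of_mem_K ?_
    change uCoord D (I * D.q) (I * D.q * zeta D.L D.q) ^ 2 ∈ K D
    rw [uCoord_ribet hI]
    exact mul_mem (neg_mem (mul_mem (ofNat_mem (K D) 2) mI)) (mem_K_of_mem_Qbar D.xQ_mem)
  · exact isIntegral_of_mem_K (mul_mem mI mq)
  · refine isIntegral_of_mem_K ?_
    change zeta D.L (I * D.q) ∈ K D
    rw [zeta_eq, zetaW_I_mul D.L hI]
    exact mul_mem (neg_mem mI) mζ
  · refine isIntegral_of_mem_K ?_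
    change I * D.q * zeta D.L D.q + D.c * (I * D.q) ∈ K D
    exact add_mem (mul_mem (mul_mem mI mq) mζ)
      (mul_mem (mem_K_of_mem_Qbar D.c_mem) (mul_mem mI mq))

lemma thirdKind_notMem (hI : D.L.ω₂ = I * D.L.ω₁)
    (hq : ∀ n : ℤ, n ≠ 0 → (n : ℂ) * D.q ∉ D.L.lattice) :
    thirdKind (ribet D hI hq) ∉ V D := by
  have key := ribet_log_notMem D.L hI (mem_Qbar.mp D.g₂_mem) hq (mem_Qbar.mp D.xQ_mem)
    (mem_Qbar.mp D.c_mem)
  have e0 : thirdKind (ribet D hI hq) = I * D.q * (zetaW D.L D.q + D.c) := by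
    simp only [thirdKind, ribet, zeta_eq]
    ring
  have e1 : ξ₁ D = (zetaW D.L D.q + D.c) * D.L.ω₁ - etaW D.L D.L.ω₁ * D.q := by
    rw [ξ₁, zeta_eq, η₁_eq]
    ring
  have e2 : ξ₂ D = (zetaW D.L D.q + D.c) * D.L.ω₂ - etaW D.L D.L.ω₂ * D.q := by
    rw [ξ₂, zeta_eq, η₂_eq]
    ring
  rw [V, e0, e1, e2]
  exact key

lemma tRank_ribet (hI : D.L.ω₂ = I * D.L.ω₁)
    (hq : ∀ n : ℤ, n ≠ 0 → (n : ℂ) * D.q ∉ D.L.lattice) :
    tRank (ribet D hI hq) = 1 := by
  refine finrank_span_singleton ?_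
  rw [Submodule.mkQ_apply, Ne, Submodule.Quotient.mk_eq_zero]
  exact thirdKind_notMem hI hq

lemma isTangent_graph (hI : D.L.ω₂ = I * D.L.ω₁) :
    IsTangent D (Submodule.span ℂ {((I, 1) : ℂ × ℂ)}) := by
  set W : Submodule ℂ (ℂ × ℂ) := Submodule.span ℂ {((I, 1) : ℂ × ℂ)} with hW
  have hmem : ∀ x : ℂ, ((I * x, x) : ℂ × ℂ) ∈ W := by
    intro x
    refine Submodule.mem_span_singleton.mpr ⟨x, ?_⟩
    simp [mul_comm]
  rw [IsTangent]
  apply Set.Subset.antisymm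
  · intro v hv
    obtain ⟨x, rfl⟩ := Submodule.mem_span_singleton.mp hv
    have hx := D.L.basis.sum_repr x
    rw [Fin.sum_univ_two, PeriodPair.basis_zero, PeriodPair.basis_one] at hx
    set a := D.L.basis.repr x 0
    set b := D.L.basis.repr x 1
    have e : x • ((I, 1) : ℂ × ℂ) =
        a • ((I * D.L.ω₁, D.L.ω₁) : ℂ × ℂ) + b • ((I * D.L.ω₂, D.L.ω₂) : ℂ × ℂ) := by
      rw [← hx]
      ext
      · simp only [Prod.smul_mk, smul_eq_mul, real_smul, Prod.mk_add_mk]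
        ring
      · simp only [Prod.smul_mk, smul_eq_mul, real_smul, Prod.mk_add_mk]
        ring
    rw [e]
    refine Submodule.add_mem _ (Submodule.smul_mem _ _ (Submodule.subset_span ?_))
      (Submodule.smul_mem _ _ (Submodule.subset_span ?_))
    · exact ⟨hmem _, I_mul_mem D.L hI D.L.ω₁_mem_lattice, D.L.ω₁_mem_lattice⟩
    · exact ⟨hmem _, I_mul_mem D.L hI D.L.ω₂_mem_lattice, D.L.ω₂_mem_lattice⟩
  · intro v hv
    have h1 : Submodule.span ℝ {v : ℂ × ℂ | v ∈ W ∧ v.1 ∈ D.L.lattice ∧ v.2 ∈ D.L.lattice} ≤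
        W.restrictScalars ℝ := Submodule.span_le.mpr (fun v hv => hv.1)
    exact h1 hv

lemma dimBQ_ribet (hI : D.L.ω₂ = I * D.L.ω₁)
    (hq : ∀ n : ℤ, n ≠ 0 → (n : ℂ) * D.q ∉ D.L.lattice) :
    dimBQ (ribet D hI hq) = 0 := by
  have h : (tangentB (ribet D hI hq) ⊓ Submodule.prod ⊤ ⊥ : Submodule ℂ (ℂ × ℂ)) = ⊥ := by
    rw [eq_bot_iff]
    intro v hv
    obtain ⟨h1, h2⟩ := Submodule.mem_inf.mp hv
    have h3 : tangentB (ribet D hI hq) ≤ Submodule.span ℂ {((I, 1) : ℂ × ℂ)} := by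
      refine sInf_le ⟨isTangent_graph hI, 1, one_ne_zero, 0, zero_mem _, 0, zero_mem _, ?_⟩
      refine Submodule.mem_span_singleton.mpr ⟨D.q, ?_⟩
      simp [ribet, mul_comm]
    obtain ⟨x, rfl⟩ := Submodule.mem_span_singleton.mp (h3 h1)
    have h4 : x = 0 := by
      have h5 := (Submodule.mem_prod.mp h2).2
      simpa using h5
    simp [h4]
  rw [dimBQ, h, finrank_bot]

lemma exists_datum {c : ℂ} (hc : c ∈ Qbar) :
    ∃ D : Datum, D.c = c ∧ D.L.ω₂ = I * D.L.ω₁ ∧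
      ∀ n : ℤ, n ≠ 0 → (n : ℂ) * D.q ∉ D.L.lattice := by
  obtain ⟨L, hI, hg⟩ := exists_square_g₂
  obtain ⟨q, hq, hP⟩ := exists_nontorsion L hI hg
  have hq0 : q ∉ L.lattice := by simpa using hq 1 one_ne_zero
  have mg : L.g₂ ∈ Qbar := by rw [hg]; exact ofNat_mem Qbar 4
  have mg3 : L.g₃ ∈ Qbar := by rw [g₃_eq_zero L hI]; exact zero_mem Qbar
  have mP : L.weierstrassP q ∈ Qbar := by
    rw [hP]; exact div_mem (one_mem _) (ofNat_mem Qbar 2)
  have mP' : L.derivWeierstrassP q ∈ Qbar := by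
    rw [mem_Qbar]
    refine IsAlgebraic.of_pow (n := 2) (by norm_num) ?_
    rw [← mem_Qbar, L.derivWeierstrassP_sq q hq0]
    exact sub_mem (sub_mem (mul_mem (ofNat_mem Qbar 4) (pow_mem mP 3)) (mul_mem mg mP)) mg3
  exact ⟨⟨L, mg, mg3, q, hq0, mP, mP', c, hc⟩, rfl, hI, hq⟩

end ribet

/-- **The inequality fails.** For every algebraic `c` there are data for which `E` has complex
multiplication by `i` and `Q` is not a torsion point, and for all such data the Ribet point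
`R = exp_G(iq, iqζ(q))` above `P = [i]Q` satisfies `trdeg = 0`, `dim B_Q = 0` and `t = 1`, so that
`trdeg ≥ 2 dim B_Q + t` is false. -/
theorem result :
    (∀ c ∈ Qbar, ∃ D : Datum, D.c = c ∧ D.L.ω₂ = I * D.L.ω₁ ∧
      ∀ n : ℤ, n ≠ 0 → (n : ℂ) * D.q ∉ D.L.lattice) ∧
    ∀ D : Datum, D.L.ω₂ = I * D.L.ω₁ → (∀ n : ℤ, n ≠ 0 → (n : ℂ) * D.q ∉ D.L.lattice) →
      ∃ R : Point D, R.z = I * D.q ∧ R.t = I * D.q * zeta D.L D.q ∧
        trdegF R = 0 ∧ dimBQ R = 0 ∧ tRank R = 1 ∧ ¬ Inequality R := by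
  refine ⟨fun c hc => exists_datum hc, fun D hI hq => ⟨ribet D hI hq, rfl, rfl,
    trdeg_ribet hI hq, dimBQ_ribet hI hq, tRank_ribet hI hq, ?_⟩⟩
  rw [Inequality, trdeg_ribet hI hq, dimBQ_ribet hI hq, tRank_ribet hI hq]
  simp

end Pool.Agent.Results.MP_4b482e_nt.RibetCounterexample
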